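import Pool.Agent.Y645.UP.Stm

/-!
# Integral polynomials by masked gates
-/

set_option autoImplicit false

namespace Pool.Agent.Y331.UP

open MvPolynomial Pool.Agent.Y645.UP

section gates

variable {k L : Type} [Field k] [CharZero k] [Field L] [Algebra k L] {R : Subalgebra k L}
  {t q₁ q₂ : L}

omit [CharZero k] in
theorem tt1 {a q e : L} (ha : a ∈ R) (hq : q ∈ R) (h0 : a ≠ 0) (he : e = a * t + q) :
    TT R t e := by
  refine ⟨Polynomial.C (⟨a, ha⟩ : R) * Polynomial.X + Polynomial.C (⟨q, hq⟩ : R), ?_, ?_⟩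
  · rw [Polynomial.natDegree_linear]
    · exact one_pos
    · intro h
      exact h0 (congrArg Subtype.val h)
  · rw [he, map_add, map_mul, Polynomial.aeval_C, Polynomial.aeval_C, Polynomial.aeval_X]
    rfl

omit [CharZero k] in
theorem tt2 {b c e : L} (hb : b ∈ R) (hc : c ∈ R) (he : e = t ^ 2 + b * t + c) :
    TT R t e := by
  refine ⟨Polynomial.C (1 : R) * Polynomial.X ^ 2 + Polynomial.C (⟨b, hb⟩ : R) * Polynomial.X +
    Polynomial.C (⟨c, hc⟩ : R), ?_, ?_⟩
  · rw [Polynomial.natDegree_quadratic one_ne_zero]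
    exact two_pos
  · rw [he, map_add, map_add, map_mul, map_mul, map_pow, Polynomial.aeval_C, Polynomial.aeval_C,
      Polynomial.aeval_C, Polynomial.aeval_X, map_one, one_mul]
    rfl

omit [CharZero k] in
theorem two_ne (k : Type) {L : Type} [Field k] [CharZero k] [Field L] [Algebra k L] :
    (2 : L) ≠ 0 := by
  haveI : CharZero L := charZero_of_injective_algebraMap (algebraMap k L).injective
  exact two_ne_zero

variable (t q₁ q₂) in
/-- the gates of a sum -/
def sg : Set (L × L) := {(t + q₁, t + q₂), (t, t + (q₁ + q₂))}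

theorem sg_tt (h₁ : q₁ ∈ R) (h₂ : q₂ ∈ R) : ∀ e ∈ vals (sg t q₁ q₂) ∅, TT R t e := by
  have h2 := two_ne (L := L) k
  have h2R : (2 : L) ∈ R := by
    have := add_mem (one_mem R) (one_mem R)
    rwa [one_add_one_eq_two] at this
  rintro e (⟨p, (rfl | rfl), (rfl | rfl | rfl)⟩ | ⟨p, hp, -⟩)
  · exact tt1 (one_mem R) h₁ one_ne_zero (by first | (dsimp only; ring) | ring)
  · exact tt1 (one_mem R) h₂ one_ne_zero (by first | (dsimp only; ring) | ring)
  · exact tt1 h2R (add_mem h₁ h₂) h2 (by first | (dsimp only; ring) | ring)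
  · exact tt1 (one_mem R) (zero_mem R) one_ne_zero (by first | (dsimp only; ring) | ring)
  · exact tt1 (one_mem R) (add_mem h₁ h₂) one_ne_zero (by first | (dsimp only; ring) | ring)
  · exact tt1 h2R (add_mem h₁ h₂) h2 (by first | (dsimp only; ring) | ring)
  · exact absurd hp (Set.notMem_empty p)

theorem sg_eq {η : L → L} (h : Sat (sg t q₁ q₂) ∅ η) :
    η (t + (q₁ + q₂)) - η t = (η (t + q₁) - η t) + (η (t + q₂) - η t) := by
  have h1 := h.1 (t + q₁, t + q₂) (Or.inl rfl)
  have h2 := h.1 (t, t + (q₁ + q₂)) (Or.inr rfl)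
  dsimp only at h1 h2
  have h3 : (t + q₁) + (t + q₂) = t + (t + (q₁ + q₂)) := by ring
  rw [h3] at h1
  linear_combination h1 - h2

theorem sg_zero {η : L → L} (h : Sat (sg t q₁ q₂) ∅ η) (ht : η t = 0) (ha : η (t + q₁) = 0)
    (hb : η (t + q₂) = 0) : ∀ e ∈ vals (sg t q₁ q₂) ∅, η e = 0 := by
  have hs : η (t + (q₁ + q₂)) = 0 := by
    have := sg_eq h
    rw [ht, ha, hb] at this
    linear_combination this
  rintro e (⟨p, (rfl | rfl), (rfl | rfl | rfl)⟩ | ⟨p, hp, -⟩)
  · exact ha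
  · exact hb
  · have h1 := h.1 (t + q₁, t + q₂) (Or.inl rfl)
    rw [h1]
    dsimp only
    rw [ha, hb, add_zero]
  · exact ht
  · exact hs
  · have h1 := h.1 (t, t + (q₁ + q₂)) (Or.inr rfl)
    rw [h1]
    dsimp only
    rw [ht, hs, add_zero]
  · exact absurd hp (Set.notMem_empty p)

variable (t q₁ q₂) in
/-- the sum gates of a product -/
def pg₁ : Set (L × L) :=
  {(t, (t + q₁) * (t + q₂)), (t * (t + (q₁ + q₂)), t + q₁ * q₂)}

variable (t q₁ q₂) in
/-- the product gates of a product -/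
def pg₂ : Set (L × L) := {(t + q₁, t + q₂), (t, t + (q₁ + q₂))}

omit [CharZero k] in
theorem pg_tt (h₁ : q₁ ∈ R) (h₂ : q₂ ∈ R) :
    ∀ e ∈ vals (pg₁ t q₁ q₂) (pg₂ t q₁ q₂), TT R t e := by
  have h12 := add_mem h₁ h₂
  have h12' := mul_mem h₁ h₂
  have h1 := one_mem R
  rintro e (⟨p, (rfl | rfl), (rfl | rfl | rfl)⟩ | ⟨p, (rfl | rfl), (rfl | rfl | rfl)⟩)
  · exact tt1 h1 (zero_mem R) one_ne_zero (by first | (dsimp only; ring) | ring)
  · exact tt2 h12 h12' (by first | (dsimp only; ring) | ring)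
  · exact tt2 (add_mem h1 h12) h12' (by first | (dsimp only; ring) | ring)
  · exact tt2 h12 (zero_mem R) (by first | (dsimp only; ring) | ring)
  · exact tt1 h1 h12' one_ne_zero (by first | (dsimp only; ring) | ring)
  · exact tt2 (add_mem h1 h12) h12' (by first | (dsimp only; ring) | ring)
  · exact tt1 h1 h₁ one_ne_zero (by first | (dsimp only; ring) | ring)
  · exact tt1 h1 h₂ one_ne_zero (by first | (dsimp only; ring) | ring)
  · exact tt2 h12 h12' (by first | (dsimp only; ring) | ring)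
  · exact tt1 h1 (zero_mem R) one_ne_zero (by first | (dsimp only; ring) | ring)
  · exact tt1 h1 h12 one_ne_zero (by first | (dsimp only; ring) | ring)
  · exact tt2 h12 (zero_mem R) (by first | (dsimp only; ring) | ring)

theorem pg_eq {η : L → L} (h : Sat (sg t q₁ q₂) ∅ η) (h' : Sat (pg₁ t q₁ q₂) (pg₂ t q₁ q₂) η) :
    η (t + q₁ * q₂) - η t = q₂ * (η (t + q₁) - η t) + q₁ * (η (t + q₂) - η t) := by
  have hs := sg_eq h
  have h3 := h'.1 (t, (t + q₁) * (t + q₂)) (Or.inl rfl)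
  have h4 := h'.1 (t * (t + (q₁ + q₂)), t + q₁ * q₂) (Or.inr rfl)
  have p1 := h'.2 (t + q₁, t + q₂) (Or.inl rfl)
  have p2 := h'.2 (t, t + (q₁ + q₂)) (Or.inr rfl)
  dsimp only at h3 h4 p1 p2
  have e1 : t + (t + q₁) * (t + q₂) = t * (t + (q₁ + q₂)) + (t + q₁ * q₂) := by ring
  rw [e1] at h3
  linear_combination h3 - h4 + p1 - p2 - t * hs

theorem pg_zero {η : L → L} (h : Sat (sg t q₁ q₂) ∅ η)
    (h' : Sat (pg₁ t q₁ q₂) (pg₂ t q₁ q₂) η) (ht : η t = 0) (ha : η (t + q₁) = 0)
    (hb : η (t + q₂) = 0) : ∀ e ∈ vals (pg₁ t q₁ q₂) (pg₂ t q₁ q₂), η e = 0 := by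
  have hs : η (t + (q₁ + q₂)) = 0 := by
    have := sg_eq h
    rw [ht, ha, hb] at this
    linear_combination this
  have hp : η (t + q₁ * q₂) = 0 := by
    have := pg_eq h h'
    rw [ht, ha, hb] at this
    linear_combination this
  have h3 := h'.1 (t, (t + q₁) * (t + q₂)) (Or.inl rfl)
  have h4 := h'.1 (t * (t + (q₁ + q₂)), t + q₁ * q₂) (Or.inr rfl)
  have p1 := h'.2 (t + q₁, t + q₂) (Or.inl rfl)
  have p2 := h'.2 (t, t + (q₁ + q₂)) (Or.inr rfl)
  dsimp only at h3 h4 p1 p2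
  rw [ha, hb, mul_zero, mul_zero, add_zero] at p1
  rw [ht, hs, mul_zero, mul_zero, add_zero] at p2
  rw [ht, p1, add_zero] at h3
  rw [p2, hp, add_zero] at h4
  rintro e (⟨p, (rfl | rfl), (rfl | rfl | rfl)⟩ | ⟨p, (rfl | rfl), (rfl | rfl | rfl)⟩)
  · exact ht
  · exact p1
  · exact h3
  · exact p2
  · exact hp
  · exact h4
  · exact ha
  · exact hb
  · exact p1
  · exact ht
  · exact hs
  · exact p2

theorem sat_union {σ₁ σ₂ τ₁ τ₂ : Set (L × L)} {η : L → L}
    (h : Sat (σ₁ ∪ τ₁) (σ₂ ∪ τ₂) η) : Sat σ₁ σ₂ η ∧ Sat τ₁ τ₂ η :=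
  ⟨⟨fun p hp => h.1 p (Or.inl hp), fun p hp => h.2 p (Or.inl hp)⟩,
    ⟨fun p hp => h.1 p (Or.inr hp), fun p hp => h.2 p (Or.inr hp)⟩⟩

theorem vals_union {σ₁ σ₂ τ₁ τ₂ : Set (L × L)} {e : L}
    (h : e ∈ vals (σ₁ ∪ τ₁) (σ₂ ∪ τ₂)) : e ∈ vals σ₁ σ₂ ∨ e ∈ vals τ₁ τ₂ := by
  rcases h with ⟨p, (hp | hp), h⟩ | ⟨p, (hp | hp), h⟩
  · exact Or.inl (Or.inl ⟨p, hp, h⟩)
  · exact Or.inr (Or.inl ⟨p, hp, h⟩)
  · exact Or.inl (Or.inr ⟨p, hp, h⟩)
  · exact Or.inr (Or.inr ⟨p, hp, h⟩)

theorem sg_fin : (sg t q₁ q₂).Finite := (Set.finite_singleton _).insert _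

theorem pg₁_fin : (pg₁ t q₁ q₂).Finite := (Set.finite_singleton _).insert _

theorem pg₂_fin : (pg₂ t q₁ q₂).Finite := (Set.finite_singleton _).insert _

end gates

section enc

variable {k L ι : Type} [Field k] [CharZero k] [Field L] [Algebra k L] [Fintype ι]

/-- the polynomial is computed by gates -/
def Enc (R : Subalgebra k L) (t : L) (v : ι → L) (f : MvPolynomial ι ℤ) : Prop :=
  ∃ σ₁ σ₂ : Set (L × L), σ₁.Finite ∧ σ₂.Finite ∧ (∀ e ∈ vals σ₁ σ₂, TT R t e) ∧
      ∀ η : L → L, Sat σ₁ σ₂ η →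
        (η (t + aeval v f) - η t = ∑ i, aeval v (pderiv i f) * (η (t + v i) - η t)) ∧
        ((∀ i, η (t + v i) = 0) → η t = 0 → ∀ e ∈ vals σ₁ σ₂, η e = 0)

theorem ev_zero {t : L} {v : ι → L} {f : MvPolynomial ι ℤ} {η : L → L}
    (h : η (t + aeval v f) - η t = ∑ i, aeval v (pderiv i f) * (η (t + v i) - η t))
    (h1 : ∀ i, η (t + v i) = 0) (ht : η t = 0) : η (t + aeval v f) = 0 := by
  rw [ht, sub_zero] at h
  rw [h]
  refine Finset.sum_eq_zero fun i _ => ?_
  rw [h1 i, sub_zero, mul_zero]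

variable {R : Subalgebra k L} {t : L} {v : ι → L}

omit [CharZero k] [Fintype ι] in
theorem ev_mem (hv : ∀ i, v i ∈ R) (f : MvPolynomial ι ℤ) : aeval v f ∈ R := by
  induction f using MvPolynomial.induction_on with
  | C a =>
    rw [aeval_C]
    exact intCast_mem R a
  | add p q hp hq =>
    rw [map_add]
    exact add_mem hp hq
  | mul_X p i hp =>
    rw [map_mul, aeval_X]
    exact mul_mem hp (hv i)

theorem enc_add (hv : ∀ i, v i ∈ R) {f g : MvPolynomial ι ℤ} (hf : Enc R t v f)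
    (hg : Enc R t v g) : Enc R t v (f + g) := by
  obtain ⟨σ₁, σ₂, s1, s2, s3, s4⟩ := hf
  obtain ⟨τ₁, τ₂, r1, r2, r3, r4⟩ := hg
  refine ⟨(σ₁ ∪ τ₁) ∪ sg t (aeval v f) (aeval v g), (σ₂ ∪ τ₂) ∪ ∅,
    (s1.union r1).union sg_fin, (s2.union r2).union Set.finite_empty, ?_, ?_⟩
  · intro e he
    rcases vals_union he with he | he
    · rcases vals_union he with he | he
      · exact s3 e he
      · exact r3 e he
    · exact sg_tt (ev_mem hv f) (ev_mem hv g) e he
  · intro η hη
    obtain ⟨hη1, hη2⟩ := sat_union hη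
    obtain ⟨hη3, hη4⟩ := sat_union hη1
    obtain ⟨a1, a2⟩ := s4 η hη3
    obtain ⟨b1, b2⟩ := r4 η hη4
    refine ⟨?_, ?_⟩
    · rw [map_add, sg_eq hη2, a1, b1, ← Finset.sum_add_distrib]
      refine Finset.sum_congr rfl fun i _ => ?_
      rw [map_add, map_add, add_mul]
    · intro h1 ht e he
      rcases vals_union he with he | he
      · rcases vals_union he with he | he
        · exact a2 h1 ht e he
        · exact b2 h1 ht e he
      · exact sg_zero hη2 ht (ev_zero a1 h1 ht) (ev_zero b1 h1 ht) e he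

theorem enc_mul (hv : ∀ i, v i ∈ R) {f : MvPolynomial ι ℤ} (hf : Enc R t v f) (i : ι) :
    Enc R t v (f * X i) := by
  classical
  obtain ⟨σ₁, σ₂, s1, s2, s3, s4⟩ := hf
  refine ⟨(σ₁ ∪ sg t (aeval v f) (v i)) ∪ pg₁ t (aeval v f) (v i),
    (σ₂ ∪ ∅) ∪ pg₂ t (aeval v f) (v i),
    (s1.union sg_fin).union pg₁_fin, (s2.union Set.finite_empty).union pg₂_fin, ?_, ?_⟩
  · intro e he
    rcases vals_union he with he | he
    · rcases vals_union he with he | he
      · exact s3 e he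
      · exact sg_tt (ev_mem hv f) (hv i) e he
    · exact pg_tt (ev_mem hv f) (hv i) e he
  · intro η hη
    obtain ⟨hη1, hη2⟩ := sat_union hη
    obtain ⟨hη3, hη4⟩ := sat_union hη1
    obtain ⟨a1, a2⟩ := s4 η hη3
    refine ⟨?_, ?_⟩
    · rw [map_mul, aeval_X, pg_eq hη4 hη2, a1]
      have e1 : ∀ j, aeval v (pderiv j (f * X i)) * (η (t + v j) - η t) =
          v i * (aeval v (pderiv j f) * (η (t + v j) - η t)) +
            (if j = i then aeval v f * (η (t + v i) - η t) else 0) := by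
        intro j
        rw [Derivation.leibniz, pderiv_X, smul_eq_mul, smul_eq_mul, map_add, map_mul, map_mul,
          aeval_X]
        by_cases hj : j = i
        · subst hj
          rw [if_pos rfl, Pi.single_eq_same, map_one]
          ring
        · rw [if_neg hj, Pi.single_eq_of_ne (fun h => hj h.symm), map_zero]
          ring
      rw [Finset.sum_congr rfl fun j _ => e1 j, Finset.sum_add_distrib, ← Finset.mul_sum,
        Finset.sum_ite_eq' Finset.univ i, if_pos (Finset.mem_univ i)]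
    · intro h1 ht e he
      rcases vals_union he with he | he
      · rcases vals_union he with he | he
        · exact a2 h1 ht e he
        · exact sg_zero hη4 ht (ev_zero a1 h1 ht) (h1 i) e he
      · exact pg_zero hη4 hη2 ht (ev_zero a1 h1 ht) (h1 i) e he

theorem enc_zero : Enc R t v (C 0) := by
  refine ⟨∅, ∅, Set.finite_empty, Set.finite_empty, ?_, ?_⟩
  · rintro e (⟨p, hp, -⟩ | ⟨p, hp, -⟩)
    · exact absurd hp (Set.notMem_empty p)
    · exact absurd hp (Set.notMem_empty p)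
  · intro η _
    refine ⟨?_, ?_⟩
    · rw [aeval_C, map_zero, add_zero, sub_self]
      symm
      refine Finset.sum_eq_zero fun i _ => ?_
      rw [pderiv_C, map_zero, zero_mul]
    · rintro - - e (⟨p, hp, -⟩ | ⟨p, hp, -⟩)
      · exact absurd hp (Set.notMem_empty p)
      · exact absurd hp (Set.notMem_empty p)

theorem D_one {η : L → L} (h : Sat (sg t 1 1) ∅ η) (h' : Sat (pg₁ t 1 1) (pg₂ t 1 1) η) :
    η (t + 1) = η t := by
  have := pg_eq h h'
  rw [mul_one] at this
  linear_combination -this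

theorem enc_one : Enc R t v (C 1) := by
  have h1 := one_mem R
  refine ⟨sg t 1 1 ∪ pg₁ t 1 1, ∅ ∪ pg₂ t 1 1, sg_fin.union pg₁_fin,
    Set.finite_empty.union pg₂_fin, ?_, ?_⟩
  · intro e he
    rcases vals_union he with he | he
    · exact sg_tt h1 h1 e he
    · exact pg_tt h1 h1 e he
  · intro η hη
    obtain ⟨hη1, hη2⟩ := sat_union hη
    have hD := D_one hη1 hη2
    refine ⟨?_, ?_⟩
    · rw [aeval_C, map_one, hD, sub_self]
      symm
      refine Finset.sum_eq_zero fun i _ => ?_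
      rw [pderiv_C, map_zero, zero_mul]
    · intro _ ht e he
      have ht1 : η (t + 1) = 0 := by rw [hD, ht]
      rcases vals_union he with he | he
      · exact sg_zero hη1 ht ht1 ht1 e he
      · exact pg_zero hη1 hη2 ht ht1 ht1 e he

theorem enc_neg_one : Enc R t v (C (-1)) := by
  have h1 := one_mem R
  have h1' := neg_mem h1
  refine ⟨(sg t 1 1 ∪ pg₁ t 1 1) ∪ sg t 1 (-1), (∅ ∪ pg₂ t 1 1) ∪ ∅,
    (sg_fin.union pg₁_fin).union sg_fin,
    (Set.finite_empty.union pg₂_fin).union Set.finite_empty, ?_, ?_⟩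
  · intro e he
    rcases vals_union he with he | he
    · rcases vals_union he with he | he
      · exact sg_tt h1 h1 e he
      · exact pg_tt h1 h1 e he
    · exact sg_tt h1 h1' e he
  · intro η hη
    obtain ⟨hη0, hη3⟩ := sat_union hη
    obtain ⟨hη1, hη2⟩ := sat_union hη0
    have hD := D_one hη1 hη2
    have hD' : η (t + -1) = η t := by
      have := sg_eq hη3
      rw [add_neg_cancel, add_zero, hD] at this
      linear_combination -this
    refine ⟨?_, ?_⟩
    · rw [aeval_C, map_neg, map_one, hD', sub_self]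
      symm
      refine Finset.sum_eq_zero fun i _ => ?_
      rw [pderiv_C, map_zero, zero_mul]
    · intro _ ht e he
      have ht1 : η (t + 1) = 0 := by rw [hD, ht]
      have ht2 : η (t + -1) = 0 := by rw [hD', ht]
      rcases vals_union he with he | he
      · rcases vals_union he with he | he
        · exact sg_zero hη1 ht ht1 ht1 e he
        · exact pg_zero hη1 hη2 ht ht1 ht1 e he
      · exact sg_zero hη3 ht ht1 ht2 e he

theorem enc_C (hv : ∀ i, v i ∈ R) (a : ℤ) : Enc R t v (C a) := by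
  induction a using Int.induction_on with
  | zero => exact enc_zero
  | succ n ih =>
    rw [C_add]
    exact enc_add hv ih enc_one
  | pred n ih =>
    rw [sub_eq_add_neg, C_add]
    exact enc_add hv ih enc_neg_one

end enc

theorem t_ENC1 : Pool.Agent.Y645.UP.S_ENC1 := by
  intro k L ι _ _ _ _ _ R t v hv f
  have h : Enc R t v f := by
    induction f using MvPolynomial.induction_on with
    | C a => exact enc_C hv a
    | add p q hp hq => exact enc_add hv hp hq
    | mul_X p i hp => exact enc_mul hv hp i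
  exact h

end Pool.Agent.Y331.UP
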