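import Pool.Agent.Y645.UP.Pink

/-!
# Pink's form of the conjecture: the equivalence
-/

set_option autoImplicit false

namespace Pool.Agent.Y331.UP

open MvPolynomial Module Pool.Agent.Y645.UL Pool.Agent.Y645.UM Pool.Agent.Y645.UP

variable {k J : Type} [Field k]

/-- the zeros of an ideal -/
def Zq (q : Ideal (MvPolynomial J k)) : Set (J → k) := {p | ∀ f ∈ q, eval p f = 0}

theorem mem_vanp {A : Set (J → k)} {f : MvPolynomial J k} :
    f ∈ vanp A ↔ ∀ p ∈ A, eval p f = 0 := Iff.rfl

/-- a closed set consists of the zeros of its ideal -/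
theorem closed_mem {A : Set (J → k)} (hA : IsClosedP A) {x : J → k}
    (hx : ∀ f ∈ vanp A, eval x f = 0) : x ∈ A := by
  obtain ⟨S, hS⟩ := hA
  rw [hS]
  intro f hf
  refine hx f ?_
  intro p hp
  rw [hS] at hp
  exact hp f hf

/-- a weak form of the theorem of zeros, from the specialization theorem -/
theorem vanp_Zq [Fintype J] [CharZero k] [IsAlgClosed k] (hTOR : S_TORp) (hGEN : S_GENp)
    (D : Data k) (hD : Good D) (q : Ideal (MvPolynomial J k)) (hq : q.IsPrime) :
    vanp (Zq q) = q := by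
  ext f
  constructor
  · intro hf
    by_contra hcon
    obtain ⟨L, _, _, a, ha⟩ := hGEN k J q hq
    have h1 : aeval a f ≠ 0 := fun h => hcon ((ha f).2 h)
    obtain ⟨x, hx1, hx2, -⟩ := hTOR k L J D hD a f h1
    refine hx2 (hf x ?_)
    intro g hg
    exact hx1 g ((ha g).1 hg)
  · intro hf p hp
    exact hp f hf

/-- one direction -/
theorem pink_of_fin (D : Data k)
    (h : ∀ (J : Type) [Fintype J] (V : Set (J → k)) (δ : ℤ), IsClosedP V → FinDefP D V δ) :
    PinkP k D := by
  classical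
  intro J _ Z d hZ hdense
  obtain ⟨𝒜, hfin, h1, h2⟩ := h J Z d hZ.1
  by_cases hc : ∃ A ∈ 𝒜, Z ⊆ A
  · obtain ⟨A, hA, hZA⟩ := hc
    obtain ⟨-, h3, h4⟩ := h1 A hA
    have h5 : Z = A := Set.Subset.antisymm hZA h3
    rw [h5]
    exact h4
  · exfalso
    have h3 : ∀ A ∈ 𝒜, ∃ f ∈ vanp A, f ∉ vanp Z := by
      intro A hA
      by_contra hcon
      push Not at hcon
      refine hc ⟨A, hA, fun x hx => ?_⟩
      exact closed_mem (h1 A hA).1.1 fun f hf => hcon f hf x hx
    choose! g hg1 hg2 using h3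
    have h4 : (∏ A ∈ hfin.toFinset, g A) ∈ vanp Z := by
      intro x hx
      refine hdense _ (fun y hy hyd => ?_) x hx
      obtain ⟨A, hA, hyA⟩ := h2 {y} (isSubvarP_singleton y) (Set.singleton_subset_iff.2 hy)
        (by omega)
      rw [map_prod]
      exact Finset.prod_eq_zero (hfin.mem_toFinset.2 hA) (hg1 A hA y (hyA rfl))
    obtain ⟨A, hA, hgA⟩ := (Ideal.IsPrime.prod_mem_iff (hp := hZ.2)).1 h4
    exact hg2 A (hfin.mem_toFinset.1 hA) hgA

/-- the other direction -/
theorem fin_of_pink [CharZero k] [IsAlgClosed k] (hTOR : S_TORp) (hGEN : S_GENp)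
    (hDIM : S_DIMp) (hISO : S_ISOp) (hTD : S_TDINC) (D : Data k) (hD : Good D)
    (h : PinkP k D) (J : Type) [Fintype J] (V : Set (J → k)) (δ : ℤ) (hV : IsClosedP V) :
    FinDefP D V δ := by
  classical
  -- the defect is nonnegative
  have hnn : ∀ A : Set (J → k), IsSubvarP A → 0 ≤ spdP D A - (dimP A : ℤ) := by
    intro A hA
    obtain ⟨L, _, _, a, ha⟩ := hGEN k J (vanp A) hA.2
    have h1 := spdP_eq hISO D a A ha
    have h2 := hDIM k L J a A ha
    have h3 := hTD k L J Empty D hD a Empty.elim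
    have h4 := td_le_card (k := k) (a ∘ (Empty.elim : Empty → J))
    rw [Fintype.card_empty] at h4
    omega
  rcases lt_or_ge δ 0 with hδ | hδ
  · refine ⟨∅, Set.finite_empty, fun A hA => absurd hA (Set.notMem_empty A), ?_⟩
    intro A hA _ hd
    have := hnn A hA
    omega
  obtain ⟨d, rfl⟩ := Int.eq_ofNat_of_zero_le hδ
  set X₀ : Set (J → k) := {x | x ∈ V ∧ spdP D {x} ≤ (d : ℤ)} with hX₀
  set I : Ideal (MvPolynomial J k) := vanp X₀ with hI
  have hfin : I.minimalPrimes.Finite := Ideal.finite_minimalPrimes_of_isNoetherianRing _ I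
  have hqp : ∀ q ∈ I.minimalPrimes, q.IsPrime := fun q hq => hq.1.1
  have hIq : ∀ q ∈ I.minimalPrimes, I ≤ q := fun q hq => hq.1.2
  have hvan : ∀ q ∈ I.minimalPrimes, vanp (Zq q) = q := fun q hq =>
    vanp_Zq hTOR hGEN D hD q (hqp q hq)
  refine ⟨Zq '' I.minimalPrimes, hfin.image _, ?_, ?_⟩
  · rintro _ ⟨q, hq, rfl⟩
    have hsub : IsSubvarP (Zq q) := by
      refine ⟨⟨q, rfl⟩, ?_⟩
      rw [hvan q hq]
      exact hqp q hq
    refine ⟨hsub, ?_, ?_⟩
    · intro p hp
      refine closed_mem hV fun f hf => hp f (hIq q hq ?_)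
      intro x hx
      exact hf x hx.1
    · refine h J (Zq q) d hsub ?_
      intro f hf
      have hprime := hqp q hq
      -- it is enough that `f` is in `q`
      suffices hfq : f ∈ q from fun x hx => hx f hfq
      have hother : ∀ q' ∈ I.minimalPrimes, q' ≠ q → ∃ g ∈ q', g ∉ q := by
        intro q' hq' hne
        by_contra hcon
        push Not at hcon
        have h1 : q' ≤ q := fun g hg => hcon g hg
        have h2 : q ≤ q' := hq.2 ⟨hqp q' hq', hIq q' hq'⟩ h1
        exact hne (le_antisymm h1 h2)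
      choose! g hg1 hg2 using hother
      set P : MvPolynomial J k := ∏ q' ∈ hfin.toFinset.erase q, g q' with hP
      have hPq : P ∉ q := by
        intro hcon
        obtain ⟨q', hq', hgq'⟩ := (Ideal.IsPrime.prod_mem_iff (hp := hprime)).1 hcon
        rw [Finset.mem_erase, Set.Finite.mem_toFinset] at hq'
        exact hg2 q' hq'.2 hq'.1 hgq'
      have hfP : f * P ∈ I := by
        intro x hx
        have hle : I ≤ vanp ({x} : Set (J → k)) := by
          intro g' hg' y hy
          rw [Set.mem_singleton_iff] at hy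
          rw [hy]
          exact hg' x hx
        haveI : (vanp ({x} : Set (J → k))).IsPrime := (isSubvarP_singleton x).2
        obtain ⟨q', hq', hq'x⟩ := Ideal.exists_minimalPrimes_le hle
        rw [map_mul]
        by_cases hqq : q' = q
        · rw [hqq] at hq'x
          rw [hf x (fun g' hg' => hq'x hg' x rfl) hx.2, zero_mul]
        · have h1 : eval x P = 0 := by
            rw [hP, map_prod]
            refine Finset.prod_eq_zero (i := q') ?_ ?_
            · rw [Finset.mem_erase, Set.Finite.mem_toFinset]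
              exact ⟨hqq, hq'⟩
            · exact hq'x (hg1 q' hq' hqq) x rfl
          rw [h1, mul_zero]
      exact (hprime.mem_or_mem (hIq q hq hfP)).resolve_right hPq
  · intro A hA hAV hd
    have hIA : I ≤ vanp A := by
      intro f hf
      by_contra hcon
      obtain ⟨L, _, _, a, ha⟩ := hGEN k J (vanp A) hA.2
      have h1 : aeval a f ≠ 0 := fun h0 => hcon ((ha f).2 h0)
      obtain ⟨x, hx1, hx2, hx3⟩ := hTOR k L J D hD a f h1
      have hxA : x ∈ A := closed_mem hA.1 fun g hg => hx1 g ((ha g).1 hg)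
      have h2 := spdP_eq hISO D a A ha
      have h3 := hDIM k L J a A ha
      have h4 := spdP_eq hISO D x {x} (mem_vanp_singleton x)
      refine hx2 (hf x ⟨hAV hxA, ?_⟩)
      omega
    haveI : (vanp A).IsPrime := hA.2
    obtain ⟨q, hq, hqA⟩ := Ideal.exists_minimalPrimes_le hIA
    exact ⟨Zq q, ⟨q, hq, rfl⟩, fun p hp f hf => hqA hf p hp⟩

theorem t_PINK (hTOR : Pool.Agent.Y645.UP.S_TORp) (hGEN : Pool.Agent.Y645.UP.S_GENp)
    (hDIM : Pool.Agent.Y645.UP.S_DIMp) (hISO : Pool.Agent.Y645.UP.S_ISOp)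
    (hTD : Pool.Agent.Y645.UP.S_TDINC) : Pool.Agent.Y645.UP.S_PINK := by
  intro k _ _ _ D hD
  constructor
  · intro h J _ V δ hV
    exact fin_of_pink hTOR hGEN hDIM hISO hTD D hD h J V δ hV
  · intro h
    exact pink_of_fin D h

end Pool.Agent.Y331.UP
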